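import Pool.Agent.K3h83.IN.Stm6

/-! The structure `LC` for `T / H`. -/

set_option autoImplicit false
set_option linter.all false

open scoped BigOperators Classical
open Pool.Agent.K3h83.IN

namespace Pool.Agent.K3h73.CY

theorem inf_bot {p : ℕ} [hp : Fact p.Prime] {B : Type} [Group B] [Finite B] {Q P H : Subgroup B}
    (hL : LC p Q P H) : H ⊓ Q = ⊥ := by
  apply Subgroup.inf_eq_bot_of_coprime
  rw [hL.cQ]
  exact ((Nat.Prime.coprime_iff_not_dvd hp.out).2 hL.cH).symm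

theorem Q_le {p : ℕ} {B : Type} [Group B] [Finite B] {Q P H : Subgroup B}
    (hL : LC p Q P H) {q h : B} (hq : q ∈ Q) (hh : h ∈ H ⊔ P) : q * h = h * q := by
  rw [← hL.cen] at hh
  exact Subgroup.mem_centralizer_iff.1 hh q hq

/-- elements of `T` which commute with `Q` modulo `H` -/
theorem dec {p : ℕ} [hp : Fact p.Prime] {B : Type} [Group B] [Finite B] {Q P H : Subgroup B}
    (hL : LC p Q P H) {T : Subgroup B} (hHT : H ≤ T) {t : B} (ht : t ∈ T) (h : t ∈ H ⊔ P) :
    ∃ x, x ∈ P ∧ x ∈ T ∧ t⁻¹ * x ∈ H := by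
  haveI := hL.nH
  have h1 : (t : B) ∈ ((H ⊔ P : Subgroup B) : Set B) := h
  rw [Subgroup.normal_mul H P] at h1
  obtain ⟨a, ha, x, hx, hax⟩ := Set.mem_mul.1 h1
  refine ⟨x, hx, ?_, ?_⟩
  · have h2 : x = a⁻¹ * t := by rw [← hax]; group
    rw [h2]
    exact T.mul_mem (T.inv_mem (hHT ha)) ht
  · rw [← hax]
    have h3 : (a * x)⁻¹ * x = x⁻¹ * a⁻¹ * x⁻¹⁻¹ := by group
    rw [h3]
    exact hL.nH.conj_mem _ (H.inv_mem ha) _

theorem lc_quot {p : ℕ} [hp : Fact p.Prime] {B : Type} [Group B] [Finite B] {Q P H : Subgroup B}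
    (hL : LC p Q P H) (T : Subgroup B) (hHT : H ≤ T) (hQT : Q ≤ T) [hN : (H.subgroupOf T).Normal] :
    LC p ((Q.subgroupOf T).map (QuotientGroup.mk' (H.subgroupOf T)))
      ((P.subgroupOf T).map (QuotientGroup.mk' (H.subgroupOf T))) ⊥ := by
  obtain ⟨π, hπ⟩ : ∃ π, π = QuotientGroup.mk' (H.subgroupOf T) := ⟨_, rfl⟩
  rw [← hπ]
  have hs : Function.Surjective π := by rw [hπ]; exact QuotientGroup.mk'_surjective _
  have hk : ∀ a b : T, π a = π b ↔ (a : B)⁻¹ * b ∈ H := by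
    intro a b
    rw [hπ, QuotientGroup.mk'_apply, QuotientGroup.mk'_apply, QuotientGroup.eq,
      Subgroup.mem_subgroupOf]
    rfl
  have hb := inf_bot hL
  haveI := hL.nQ
  haveI := hL.nH
  -- the elements commuting with `Q`
  have hc : ∀ t : T, π t ∈ Subgroup.centralizer (((Q.subgroupOf T).map π : Subgroup _) : Set _) →
      (t : B) ∈ H ⊔ P := by
    intro t ht
    rw [← hL.cen, Subgroup.mem_centralizer_iff]
    intro q hq
    have h1 : π ⟨q, hQT hq⟩ * π t = π t * π ⟨q, hQT hq⟩ := by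
      refine Subgroup.mem_centralizer_iff.1 ht _ ?_
      exact ⟨⟨q, hQT hq⟩, hq, rfl⟩
    rw [← map_mul, ← map_mul, hk] at h1
    have h2 : ((t : B) * q * (t : B)⁻¹) * q⁻¹ ∈ Q :=
      Q.mul_mem (hL.nQ.conj_mem _ hq _) (Q.inv_mem hq)
    have h3 : ((⟨q, hQT hq⟩ * t : T) : B)⁻¹ * ((t * ⟨q, hQT hq⟩ : T) : B) =
        (q * t)⁻¹ * (t * q) := rfl
    rw [h3] at h1
    have h4 : (q * (t : B)) * ((q * t)⁻¹ * (t * q)) * (q * (t : B))⁻¹ ∈ H :=
      hL.nH.conj_mem _ h1 _
    have h5 : (q * (t : B)) * ((q * t)⁻¹ * (t * q)) * (q * (t : B))⁻¹ =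
        ((t : B) * q * (t : B)⁻¹) * q⁻¹ := by group
    rw [h5] at h4
    have h6 : ((t : B) * q * (t : B)⁻¹) * q⁻¹ ∈ H ⊓ Q := ⟨h4, h2⟩
    rw [hb, Subgroup.mem_bot, mul_inv_eq_one, mul_inv_eq_iff_eq_mul] at h6
    exact h6.symm
  have hd : ∀ t : T, (t : B) ∈ H ⊔ P → π t ∈ (P.subgroupOf T).map π := by
    intro t ht
    obtain ⟨x, h1, h2, h3⟩ := dec hL hHT t.2 ht
    exact ⟨⟨x, h2⟩, h1, ((hk _ _).2 h3).symm⟩
  have hcyc : IsCyclic P := hL.cyc
  constructor
  · exact Subgroup.Normal.map inferInstance π hs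
  · rw [← hL.cQ]
    have h1 : Nat.card ((Q.subgroupOf T).map π) = Nat.card (Q.subgroupOf T) := by
      refine Nat.card_image_of_injOn (f := π) (s := ((Q.subgroupOf T : Subgroup T) : Set T)) ?_
      intro a ha b hb' hab
      rw [hk] at hab
      have h2 : (a : B)⁻¹ * b ∈ H ⊓ Q := ⟨hab, Q.mul_mem (Q.inv_mem ha) hb'⟩
      rw [hb, Subgroup.mem_bot, inv_mul_eq_one] at h2
      exact Subtype.ext h2
    rw [h1]
    exact Nat.card_congr (Subgroup.subgroupOfEquivOfLe hQT).toEquiv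
  · exact Subgroup.map_mono (Subgroup.comap_mono hL.QP)
  · have h1 : IsCyclic (P.subgroupOf T) :=
      isCyclic_of_injective (T.subtype.subgroupComap P) (by
        intro a b hab
        have := congrArg (fun z : P => (z : B)) hab
        exact Subtype.ext (Subtype.ext this))
    exact isCyclic_of_surjective (π.subgroupMap (P.subgroupOf T))
      (π.subgroupMap_surjective (P.subgroupOf T))
  · exact (hL.pP.comap_of_injective T.subtype T.subtype_injective).map π
  · infer_instance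
  · rw [Subgroup.card_bot]
    exact hp.out.one_lt.ne' ∘ Nat.dvd_one.1
  · rw [bot_sup_eq]
    apply le_antisymm
    · intro y hy
      obtain ⟨t, rfl⟩ := hs y
      exact hd t (hc t hy)
    · rintro _ ⟨x, hx, rfl⟩
      rw [Subgroup.mem_centralizer_iff]
      rintro _ ⟨q, hq, rfl⟩
      rw [← map_mul, ← map_mul]
      congr 1
      exact Subtype.ext (Q_le hL hq (Subgroup.mem_sup_right hx))
  · rw [bot_sup_eq]
    intro h1
    apply hL.idx
    have h2 : (((P.subgroupOf T).map π).comap π).index = ((P.subgroupOf T).map π).index :=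
      Subgroup.index_comap_of_surjective _ hs
    have h3 : (H ⊔ P).subgroupOf T ≤ ((P.subgroupOf T).map π).comap π := fun t ht => hd t ht
    have h4 : ((P.subgroupOf T).map π).index ∣ ((H ⊔ P).subgroupOf T).index := by
      rw [← h2]
      exact Subgroup.index_dvd_of_le h3
    haveI h5 : (H ⊔ P).Normal := by
      rw [← hL.cen]
      infer_instance
    exact (h1.trans h4).trans (Subgroup.relIndex_dvd_index_of_normal (H ⊔ P) T)

end Pool.Agent.K3h73.CY
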