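import Pool.Agent.K3h73.CY.Ind
import Pool.Agent.K3h73.CY.Quo
import Pool.Agent.K3h4.OP.M6

/-! The characters of `B` by Clifford theory (brick C3). -/

set_option autoImplicit false
set_option linter.all false

open scoped BigOperators Classical
open Pool.Agent.Helper884.IC Pool.Agent.Y63.AWC Pool.Agent.R678.MC
open Pool.Agent.K3h83.IN Pool.Agent.K3h3.KB Pool.Agent.K3h96.IN
open Pool.Agent.H254R3.IN (IsIrr)

noncomputable section

namespace Pool.Agent.K3h73.CY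

theorem fix_iff {Y : Type} [Group Y] [Fintype Y] (H : Subgroup Y) [H.Normal] (φ : H → ℂ) (b : Y) :
    b ∈ inert H φ ↔ fixes H.subtype φ b := by
  rw [mem_inert]
  constructor
  · intro h l l' hl
    have h1 := congrFun h l
    have h2 : (MulAut.conjNormal b l : H) = l' := by
      apply Subtype.ext
      rw [MulAut.conjNormal_apply]
      exact hl
    unfold cj at h1
    rwa [h2] at h1
  · intro h
    funext l
    refine h l _ ?_
    show _ = (((MulAut.conjNormal b l : H)) : Y)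
    rw [MulAut.conjNormal_apply]
    rfl

theorem ov_sub {Y : Type} [Group Y] [Fintype Y] (H : Subgroup Y) {φ : H → ℂ} (hφ : IsIrr φ)
    {χ : Y → ℂ} (hχ : IsIrr χ) : ov H.subtype φ χ ↔ mult H χ φ ≠ 0 := by
  rw [ov_iff]
  have h : (fun l => χ (H.subtype l)) = res H χ := rfl
  rw [h, mult_spec H hχ hφ]
  exact Nat.cast_ne_zero

theorem block (ha : C3a) (hb : C3b) (p : ℕ) [hp : Fact p.Prime] (Y : Type) [Group Y] [Fintype Y]
    (Q P H : Subgroup Y) (hL : LC p Q P H) (φ : H → ℂ) (hφ : IsIrr φ) :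
    ∃ (Ω : Type) (_ : Fintype Ω) (e f : Ω → ℕ) (ξ : (ω : Ω) → Fin (e ω) → (Y → ℂ))
    (ψ : (ω : Ω) → Fin (f ω) → (Y → ℂ)),
    (∀ ω, 0 < e ω) ∧ (∀ ω, 0 < f ω) ∧ (∀ ω j, IsIrr (ξ ω j) ∧ ov H.subtype φ (ξ ω j)) ∧
    (∀ ω i, IsIrr (ψ ω i) ∧ ov H.subtype φ (ψ ω i)) ∧
    (Function.Injective fun m : (Σ ω, Fin (e ω) ⊕ Fin (f ω)) => Sum.elim (ξ m.1) (ψ m.1) m.2) ∧
    (∀ χ : Y → ℂ, IsIrr χ → ov H.subtype φ χ → ∃ m : (Σ ω, Fin (e ω) ⊕ Fin (f ω)),
      Sum.elim (ξ m.1) (ψ m.1) m.2 = χ) ∧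
    (∀ ω i (g : Y), ¬ p ∣ orderOf g → ψ ω i g = ∑ j, ξ ω j g) ∧
    (∀ ω j (g : Y), p ∣ orderOf g → (∑ i, ψ ω i g) + ξ ω j g = 0) := by
  haveI := hL.nH
  obtain ⟨T, hTd⟩ : ∃ T, T = inert H φ := ⟨_, rfl⟩
  have hT : ∀ b, b ∈ T ↔ fixes H.subtype φ b := by
    intro b
    rw [hTd]
    exact fix_iff H φ b
  have hHT : H ≤ T := by
    intro h hh
    rw [hT]
    intro l l' hl
    have h1 : l' = ⟨h, hh⟩ * l * ⟨h, hh⟩⁻¹ := Subtype.ext hl.symm
    rw [h1]
    exact hφ.conj l ⟨h, hh⟩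
  have hQT : Q ≤ T := by
    intro q hq
    rw [hT]
    intro l l' hl
    have h1 := Q_le hL hq (Subgroup.mem_sup_left (T := P) l.2)
    have h2 : l' = l := by
      apply Subtype.ext
      have h3 : (l' : Y) = q * l * q⁻¹ := hl.symm
      rw [h3, h1]
      group
    rw [h2]
  haveI hN : (H.subgroupOf T).Normal := inferInstance
  have hLq := lc_quot hL T hHT hQT
  obtain ⟨Ω, iΩ, e, f, ξ', ψ', d1, d2, d3, d4, d5, d6, d7, d8⟩ :=
    ha p (T ⧸ H.subgroupOf T) _ _ hLq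
  obtain ⟨φ', hφ', hext⟩ := hb p Y Q P H hL φ hφ T hT
  obtain ⟨V, i1, i2, i3, ρ, hρ, hρφ⟩ := hφ'
  obtain ⟨π, hπ⟩ : ∃ π, π = QuotientGroup.mk' (H.subgroupOf T) := ⟨_, rfl⟩
  have hs : Function.Surjective π := by rw [hπ]; exact QuotientGroup.mk'_surjective _
  have hker : π.ker = (Subgroup.inclusion hHT).range := by
    rw [hπ, QuotientGroup.ker_mk', Subgroup.inclusion_range]
  have hφe : (fun l : H => ρ.character (Subgroup.inclusion hHT l)) = φ := by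
    funext l
    have h1 := hext l (Subgroup.inclusion hHT l) rfl
    rw [← h1, hρφ]
  obtain ⟨g1, g2, g3⟩ := Pool.Agent.K3h18.IN.t_S3g H T (T ⧸ H.subgroupOf T)
    (Subgroup.inclusion hHT) (Subgroup.inclusion_injective hHT) π hs hker V ρ
    (by rw [hφe]; exact hφ)
  rw [hφe] at g3
  obtain ⟨k1, k2, k3⟩ := clb H.subtype H.subtype_injective (by rw [Subgroup.range_subtype]; exact hL.nH)
    φ hφ T hT (Subgroup.inclusion hHT) (fun l => rfl)
  obtain ⟨G, hG⟩ : ∃ G : ((T ⧸ H.subgroupOf T) → ℂ) → (T → ℂ),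
    ∀ β, G β = fun x => ρ.character x * β (π x) := ⟨_, fun β => rfl⟩
  have hG' : ∀ β t, G β t = ρ.character t * β (π t) := fun β t => by rw [hG]
  have hGi : ∀ β, IsIrr β → IsIrr (G β) := by
    intro β hβ
    rw [hG]
    exact g1 β hβ
  have hGo : ∀ β, IsIrr β → ov (Subgroup.inclusion hHT) φ (G β) := by
    intro β hβ
    rw [ov_iff]
    have h1 : (fun l : H => G β (Subgroup.inclusion hHT l)) = β 1 • φ := by
      funext l
      rw [hG]
      have h2 : π (Subgroup.inclusion hHT l) = 1 := by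
        have : Subgroup.inclusion hHT l ∈ π.ker := by
          rw [hker]
          exact ⟨l, rfl⟩
        exact this
      have h3 := congrFun hφe l
      beta_reduce at h3 ⊢
      rw [h2, h3, mul_comm]
      rfl
    rw [h1, B_smul_left, B_irr hφ hφ, if_pos rfl, mul_one]
    exact hβ.one_ne
  have hinj : ∀ β β', IsIrr β → IsIrr β' → indT T (G β) = indT T (G β') → β = β' := by
    intro β β' hβ hβ' h
    have h1 := k3 _ _ (hGi β hβ) (hGi β' hβ') (hGo β hβ) (hGo β' hβ') h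
    rw [hG, hG] at h1
    exact g2 β β' hβ hβ' h1
  have hF : ∀ m : (Σ ω, Fin (e ω) ⊕ Fin (f ω)), IsIrr (Sum.elim (ξ' m.1) (ψ' m.1) m.2) := by
    rintro ⟨ω, j | i⟩
    · exact d3 ω j
    · exact d4 ω i
  have hel : ∀ m : (Σ ω, Fin (e ω) ⊕ Fin (f ω)),
      Sum.elim (fun j => indT T (G (ξ' m.1 j))) (fun i => indT T (G (ψ' m.1 i))) m.2 =
        indT T (G (Sum.elim (ξ' m.1) (ψ' m.1) m.2)) := by
    rintro ⟨ω, j | i⟩ <;> rfl
  have hirr : ∀ β, IsIrr β → IsIrr (indT T (G β)) ∧ ov H.subtype φ (indT T (G β)) :=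
    fun β hβ => k1 _ (hGi β hβ) (hGo β hβ)
  refine ⟨Ω, iΩ, e, f, fun ω j => indT T (G (ξ' ω j)), fun ω i => indT T (G (ψ' ω i)), d1, d2,
    fun ω j => hirr _ (d3 ω j), fun ω i => hirr _ (d4 ω i), ?_, ?_, ?_, ?_⟩
  · intro m m' h
    beta_reduce at h
    rw [hel, hel] at h
    exact d5 (hinj _ _ (hF m) (hF m') h)
  · intro χ hχ ho
    obtain ⟨θ, hθ, ho', hθχ⟩ := k2 χ hχ ho
    obtain ⟨β, hβ, hθβ⟩ := g3 θ hθ ho'
    obtain ⟨m, hm⟩ := d6 β hβ
    refine ⟨m, ?_⟩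
    beta_reduce
    rw [hel, hm, hG, ← hθβ, hθχ]
  · intro ω i g hg
    have h1 : indT T (G (ψ' ω i) - ∑ j, G (ξ' ω j)) g = 0 := by
      refine indT_zero T _ (fun n => ¬ p ∣ n) (fun t ht => ?_) g hg
      have h2 : ¬ p ∣ orderOf (π t) := fun h => ht (h.trans (orderOf_map_dvd π t))
      have h3 := d7 ω i (π t) h2
      rw [Pi.sub_apply, Finset.sum_apply, hG', h3, Finset.mul_sum, sub_eq_zero]
      refine Finset.sum_congr rfl fun j _ => ?_
      rw [hG']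
    have h2 : indT T (G (ψ' ω i) - ∑ j, G (ξ' ω j)) =
        indT T (G (ψ' ω i)) - ∑ j, indT T (G (ξ' ω j)) := by
      have h3 := map_sub (indL T) (G (ψ' ω i)) (∑ j, G (ξ' ω j))
      rw [map_sum] at h3
      exact h3
    rw [h2, Pi.sub_apply, Finset.sum_apply, sub_eq_zero] at h1
    exact h1
  · intro ω j g hg
    have h1 : indT T ((∑ i, G (ψ' ω i)) + G (ξ' ω j)) g = 0 := by
      refine indT_zero T _ (fun n => p ∣ n) (fun t ht => ?_) g hg
      have h2 : p ∣ orderOf (π t) := by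
        have h4 : π (t ^ orderOf (π t)) = 1 := by rw [map_pow, pow_orderOf_eq_one]
        have h5 : ((t ^ orderOf (π t) : T) : Y) ∈ H := by
          have h6 : t ^ orderOf (π t) ∈ π.ker := h4
          rw [hπ, QuotientGroup.ker_mk', Subgroup.mem_subgroupOf] at h6
          rw [hπ]
          exact h6
        have h6 : (⟨_, h5⟩ : H) ^ Nat.card H = 1 := pow_card_eq_one'
        have h7 : t ^ (orderOf (π t) * Nat.card H) = 1 := by
          rw [pow_mul]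
          apply Subtype.ext
          have := congrArg (Subtype.val) h6
          exact this
        have h8 := ht.trans (orderOf_dvd_of_pow_eq_one h7)
        exact ((Nat.Prime.dvd_mul hp.out).1 h8).resolve_right hL.cH
      have h3 := d8 ω j (π t) h2
      rw [Pi.add_apply, Finset.sum_apply, hG' (ξ' ω j)]
      have h4 : ∑ i, G (ψ' ω i) t = ρ.character t * ∑ i, ψ' ω i (π t) := by
        rw [Finset.mul_sum]
        refine Finset.sum_congr rfl fun i _ => ?_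
        rw [hG']
      rw [h4, ← mul_add, h3, mul_zero]
    have h2 : indT T ((∑ i, G (ψ' ω i)) + G (ξ' ω j)) =
        (∑ i, indT T (G (ψ' ω i))) + indT T (G (ξ' ω j)) := by
      have h3 := map_add (indL T) (∑ i, G (ψ' ω i)) (G (ξ' ω j))
      rw [map_sum] at h3
      exact h3
    rw [h2, Pi.add_apply, Finset.sum_apply] at h1
    exact h1

theorem t_C3 (ha : C3a) (hb : C3b) : C3 := by
  intro p hp Y _ _ Q P H hL
  haveI := Fintype.ofFinite Y
  haveI := hL.nH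
  let s : Setoid {φ : H → ℂ // IsIrr φ} :=
    { r := fun a b => ∃ y : Y, cj H y a.1 = b.1
      iseqv := ⟨fun a => ⟨1, cj_one H _⟩,
        fun {a b} ⟨y, hy⟩ => ⟨y⁻¹, ((cj_inv_iff H y _ _).1 hy).symm⟩,
        fun {a b c} ⟨y, hy⟩ ⟨z, hz⟩ => ⟨y * z, by rw [cj_mul, hy, hz]⟩⟩ }
  haveI : Finite {φ : H → ℂ // IsIrr φ} := Pool.Agent.K3h4.OP.irr_fin H
  haveI := Fintype.ofFinite (Quotient s)
  choose Ω iΩ e f ξ ψ b1 b2 b3 b4 b5 b6 b7 b8 using
    fun o : Quotient s => block ha hb p Y Q P H hL o.out.1 o.out.2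
  refine ⟨Σ o, Ω o, inferInstance, fun m => e m.1 m.2, fun m => f m.1 m.2,
    fun m j => ξ m.1 m.2 j, fun m i => ψ m.1 m.2 i, fun m => b1 m.1 m.2, fun m => b2 m.1 m.2,
    fun m j => (b3 m.1 m.2 j).1, fun m i => (b4 m.1 m.2 i).1, ?_, ?_,
    fun m i g hg => b7 m.1 m.2 i g hg, fun m j g hg => b8 m.1 m.2 j g hg⟩
  · have hu : ∀ (o : Quotient s) (ω : Ω o) (u : Fin (e o ω) ⊕ Fin (f o ω)),
        IsIrr (Sum.elim (ξ o ω) (ψ o ω) u) ∧
          ov H.subtype o.out.1 (Sum.elim (ξ o ω) (ψ o ω) u) := by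
      rintro o ω (j | i)
      · exact b3 o ω j
      · exact b4 o ω i
    rintro ⟨⟨o, ω⟩, u⟩ ⟨⟨o', ω'⟩, u'⟩ h
    have h' : Sum.elim (ξ o ω) (ψ o ω) u = Sum.elim (ξ o' ω') (ψ o' ω') u' := h
    have h1 := hu o ω u
    have h2 := hu o' ω' u'
    rw [← h'] at h2
    have h3 : o = o' := by
      obtain ⟨y, hy⟩ := orbit_of_mult h1.1 o.out.2 o'.out.2 ((ov_sub H o.out.2 h1.1).1 h1.2)
        ((ov_sub H o'.out.2 h2.1).1 h2.2)
      have h4 : Quotient.mk s o'.out = Quotient.mk s o.out := Quotient.sound ⟨y, hy⟩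
      rw [Quotient.out_eq, Quotient.out_eq] at h4
      exact h4.symm
    subst h3
    have h4 : (⟨ω, u⟩ : Σ ω, Fin (e o ω) ⊕ Fin (f o ω)) = ⟨ω', u'⟩ := b5 o h'
    cases h4
    rfl
  · intro χ hχ
    obtain ⟨θ, hθ, hm⟩ := exists_under (N := H) (χ := χ) hχ
    obtain ⟨o, ho⟩ : ∃ o, o = Quotient.mk s ⟨θ, hθ⟩ := ⟨_, rfl⟩
    obtain ⟨y, hy⟩ : ∃ y : Y, cj H y o.out.1 = θ := by
      have h1 : Quotient.mk s o.out = Quotient.mk s ⟨θ, hθ⟩ := by rw [Quotient.out_eq, ho]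
      exact Quotient.exact h1
    have h2 : mult H χ o.out.1 ≠ 0 := by
      rw [← mult_cj H hχ o.out.2 y, hy]
      exact hm
    obtain ⟨m, hm'⟩ := b6 o χ hχ ((ov_sub H o.out.2 hχ).2 h2)
    exact ⟨⟨⟨o, m.1⟩, m.2⟩, hm'⟩

end Pool.Agent.K3h73.CY
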