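import Pool.Agent.K3h83.IN.Stm6
import Pool.Agent.K3h4.OP.M6

/-! The inequality between the numbers of characters and of classes (brick C5). -/

set_option autoImplicit false
set_option linter.all false

open scoped BigOperators Classical

noncomputable section

namespace Pool.Agent.K3h73.CY

open Pool.Agent.K3h83.IN Pool.Agent.Helper884 Pool.Agent.K3h3.KB Pool.Agent.K3h3.MK
open Pool.Agent.H254R3.IN (IsIrr mem_Irr RF red charP_RF)
open Pool.Agent.K3h4.OP

theorem OccS_iso {F B X V V' W : Type} [Field F] [Group B] [Finite B] [Group X] [AddCommGroup V]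
    [Module F V] [AddCommGroup V'] [Module F V'] [AddCommGroup W] [Module F W] {ι : B →* X}
    {ρ : Representation F X V} {ρ' : Representation F X V'} {τ : Representation F B W}
    (e : V ≃ₗ[F] V') (he : ∀ (g : X) (v : V), e (ρ g v) = ρ' g (e v)) (h : OccS ι ρ τ) :
    OccS ι ρ' τ := by
  letI := Fintype.ofFinite B
  obtain ⟨f, h1, h2⟩ := h
  refine ⟨e.toLinearMap ∘ₗ f, fun b w => ?_, ?_⟩
  · show ρ' (ι b) (e (f w)) = e (f (τ b w))
    rw [← he, h1]
  · rintro ⟨θ, hθ⟩
    apply h2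
    refine ⟨e.symm.toLinearMap ∘ₗ θ, ?_⟩
    refine LinearMap.ext fun w => e.injective ?_
    have h3 := LinearMap.congr_fun hθ w
    rw [LinearMap.sum_apply] at h3
    rw [LinearMap.sum_apply, map_sum]
    refine h3.trans (Finset.sum_congr rfl fun b _ => ?_)
    show ρ' (ι b) (θ (τ b⁻¹ w)) = e (ρ (ι b) (e.symm (θ (τ b⁻¹ w))))
    rw [he, e.apply_symm_apply]

theorem t_C5 (h1 : M1) (h2 : M2) (h3 : D3) (h4 : D4) (h5 : D5) (h6 : D6) : C5 := by
  intro p hp B X _ _ _ _ Q P H ι hL hE
  obtain ⟨O, hO⟩ := exists_O hp.out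
  have hac : IsAlgClosed (RF O) := rf_closed O
  have hch : CharP (RF O) p := charP_RF hO
  obtain ⟨n1, ρ1, a1, a2, a3⟩ := h2 p O hO X
  obtain ⟨n2, τ, b1, b2⟩ := h3 p O hO B
  choose m2 ρ2 c1 c2 using fun i => h4 p (RF O) B X Q ι hL.nQ hL.cQ hE.inj (n2 i) (τ i) (b1 i)
  have := dz_fin p X
  have key := h1 p (RF O) X
    (Dz p X ⊕ {c : ConjClasses B // ∃ g, ConjClasses.mk g = c ∧ ¬ p ∣ orderOf g})
    (Sum.elim n1 m2)
    (fun i => match i with
      | .inl a => ρ1 a
      | .inr b => ρ2 b)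
    (by
      rintro (i | i)
      · exact a1 i
      · exact c1 i)
    (by
      have hmix : ∀ i j, NonIso (ρ1 i) (ρ2 j) := by
        rintro i j ⟨e, he⟩
        have h7 : OccS ι (ρ1 i) (τ j) := by
          refine OccS_iso e.symm (fun g v => ?_) (c2 j)
          apply e.injective
          rw [he, e.apply_symm_apply, e.apply_symm_apply]
        exact h6 (RF O) B X ι hE.inj (n1 i) (n2 j) (ρ1 i) (τ j) (a3 i) h7
      rintro (i | i) (j | j) hij
      · exact a2 i j fun h => hij (by rw [h])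
      · exact hmix i j
      · exact NonIso_symm (hmix j i)
      · rintro ⟨e, he⟩
        have hne : i ≠ j := fun h => hij (by rw [h])
        exact h5 p (RF O) B X Q P H ι hL hE (m2 j) (ρ2 j) (c1 j) (n2 i) (n2 j) (τ i) (τ j)
          (b1 i) (b1 j) (OccS_iso e he (c2 i)) (c2 j) (b2 i j hne))
  rw [Nat.card_sum] at key
  exact key

end Pool.Agent.K3h73.CY
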