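import Pool.Agent.K3h96.IN.S1
import Pool.Agent.K3h18.IN.Gal
import Pool.Agent.K3h83.IN.Stm6

/-! Induced characters and the Clifford correspondence. -/

set_option autoImplicit false
set_option linter.all false

open scoped BigOperators Classical
open Pool.Agent.Helper884.IC Pool.Agent.Y63.AWC Pool.Agent.R678.MC
open Pool.Agent.K3h83.IN Pool.Agent.K3h3.KB Pool.Agent.K3h96.IN
open Pool.Agent.H254R3.IN (IsIrr)

noncomputable section

namespace Pool.Agent.K3h73.CY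

variable {X : Type} [Group X] [Fintype X]

def ex0 (T : Subgroup X) (F : T → ℂ) (x : X) : ℂ := if h : x ∈ T then F ⟨x, h⟩ else 0

def indT (T : Subgroup X) (F : T → ℂ) : X → ℂ := fun g =>
  (Nat.card T : ℂ)⁻¹ * ∑ t : X, ex0 T F (t⁻¹ * g * t)

lemma indT_class (T : Subgroup X) (F : T → ℂ) : IsClass (indT T F) := by
  intro g y
  unfold indT
  congr 1
  refine Fintype.sum_equiv (Equiv.mulLeft y⁻¹) _ _ fun t => ?_
  simp only [Equiv.coe_mulLeft]
  congr 1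
  group

lemma sum_T (T : Subgroup X) (f : X → ℂ) (hf : ∀ g, g ∉ T → f g = 0) :
    ∑ g : X, f g = ∑ m : T, f m := by
  rw [← Finset.sum_subtype (Finset.univ.filter (· ∈ T)) (by simp) f]
  symm
  apply Finset.sum_subset (Finset.filter_subset _ _)
  intro x _ hx
  apply hf
  simpa using hx

lemma B_indT (T : Subgroup X) (F : T → ℂ) {f : X → ℂ} (hf : IsClass f) :
    B (indT T F) f = B F (res T f) := by
  have h1 : ∀ t : X, ∑ g : X, ex0 T F (t⁻¹ * g * t) * f g⁻¹ = ∑ m : T, F m * res T f m⁻¹ := by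
    intro t
    have h2 : ∑ g : X, ex0 T F (t⁻¹ * g * t) * f g⁻¹ = ∑ u : X, ex0 T F u * f u⁻¹ := by
      refine Fintype.sum_equiv ((Equiv.mulLeft t⁻¹).trans (Equiv.mulRight t)) _ _ fun g => ?_
      simp only [Equiv.trans_apply, Equiv.coe_mulLeft, Equiv.coe_mulRight]
      congr 1
      rw [← hf g⁻¹ t⁻¹]
      congr 1
      group
    rw [h2, sum_T T (fun u => ex0 T F u * f u⁻¹) (by
      intro g hg
      simp [ex0, hg])]
    refine Finset.sum_congr rfl fun m _ => ?_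
    simp [ex0, res]
  have h3 : ∑ g : X, indT T F g * f g⁻¹ =
      (Nat.card T : ℂ)⁻¹ * ∑ t : X, ∑ g : X, ex0 T F (t⁻¹ * g * t) * f g⁻¹ := by
    rw [Finset.sum_comm, Finset.mul_sum]
    refine Finset.sum_congr rfl fun g _ => ?_
    unfold indT
    rw [mul_assoc, Finset.sum_mul]
  unfold B
  rw [h3, Finset.sum_congr rfl fun t _ => h1 t, Finset.sum_const, Finset.card_univ, nsmul_eq_mul]
  have hX := cardG_ne (G := X)
  have hT := cardG_ne (G := T)
  rw [Nat.card_eq_fintype_card] at hX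
  rw [Nat.card_eq_fintype_card (α := X)]
  field_simp

lemma indT_eq (T : Subgroup X) {ψ : T → ℂ} (h : IsIrr ψ) :
    indT T ψ = ∑ χ ∈ Irr X, (mult T χ ψ : ℂ) • χ := by
  conv_lhs => rw [expand (indT T ψ) (indT_class T ψ)]
  refine Finset.sum_congr rfl fun χ hc => ?_
  have hc' := mem_Irr.mp hc
  rw [B_indT T ψ hc'.isClass, B_comm, mult_spec T hc' h]

lemma one_of_sum {α : Type} (s : Finset α) (m : α → ℕ) (h : ∑ a ∈ s, m a = 1) {a₀ : α}
    (h0 : a₀ ∈ s) (hm : m a₀ ≠ 0) : m a₀ = 1 ∧ ∀ a ∈ s, a ≠ a₀ → m a = 0 := by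
  have h1 := Finset.add_sum_erase s m h0
  rw [h] at h1
  have h2 : ∑ a ∈ s.erase a₀, m a = 0 := by omega
  refine ⟨by omega, fun a ha hne => ?_⟩
  exact (Finset.sum_eq_zero_iff.1 h2) a (Finset.mem_erase.2 ⟨hne, ha⟩)

/-- the Clifford correspondence -/
theorem clb {L : Type} [Group L] [Finite L] (j : L →* X) (hj : Function.Injective j)
    (hN : j.range.Normal) (θ : L → ℂ) (hθ : IsIrr θ) (T : Subgroup X)
    (hT : ∀ x, x ∈ T ↔ fixes j θ x) (jT : L →* T) (hjT : ∀ l, (jT l : X) = j l) :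
    (∀ ψ, IsIrr ψ → ov jT θ ψ → IsIrr (indT T ψ) ∧ ov j θ (indT T ψ)) ∧
    (∀ χ, IsIrr χ → ov j θ χ → ∃ ψ, IsIrr ψ ∧ ov jT θ ψ ∧ indT T ψ = χ) ∧
    (∀ ψ ψ', IsIrr ψ → IsIrr ψ' → ov jT θ ψ → ov jT θ ψ' → indT T ψ = indT T ψ' → ψ = ψ') := by
  haveI := Fintype.ofFinite L
  have hjTi : Function.Injective jT := by
    intro a b hab
    apply hj
    rw [← hjT, ← hjT, hab]
  haveI hN' : jT.range.Normal := by
    refine ⟨?_⟩
    rintro _ ⟨l, rfl⟩ t
    obtain ⟨l', hl'⟩ := hN.conj_mem (j l) ⟨l, rfl⟩ (t : X)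
    refine ⟨l', Subtype.ext ?_⟩
    rw [hjT, hl', Subgroup.coe_mul, Subgroup.coe_mul, hjT]
    rfl
  have hfix : ∀ x : T, x ∈ (⊤ : Subgroup T) ↔ fixes jT θ x := by
    intro x
    constructor
    · intro _ l l' hll
      refine (hT (x : X)).1 x.2 l l' ?_
      have := congrArg (Subtype.val) hll
      rw [← hjT, ← hjT]
      exact this
    · intro _
      exact Subgroup.mem_top x
  set e : (X → ℂ) → ℕ := fun χ => mult j.range χ (tr j hj θ) with he
  set f : (T → ℂ) → ℕ := fun ψ => mult jT.range ψ (tr jT hjTi θ) with hf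
  have h1 : ∀ χ ∈ Irr X, e χ = ∑ ψ ∈ Irr T, mult T χ ψ * f ψ := by
    intro χ hχ
    have h2 : B (fun l => χ (j l)) θ = ((e χ : ℕ) : ℂ) :=
      (B_tr j hj θ χ).trans (mult_spec j.range (mem_Irr.mp hχ) (tr_irr j hj hθ))
    have h3 : (fun l => χ (j l)) = fun l => res T χ (jT l) := by
      funext l
      rw [res, hjT]
    have h4 : (fun l => res T χ (jT l)) =
        ∑ ψ ∈ Irr T, (mult T χ ψ : ℂ) • fun l => ψ (jT l) := by
      funext l
      rw [res_eq T (mem_Irr.mp hχ)]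
      simp only [Finset.sum_apply, Pi.smul_apply]
    rw [h3, h4, B_sum_left] at h2
    have h5 : ∀ ψ ∈ Irr T, B ((mult T χ ψ : ℂ) • fun l => ψ (jT l)) θ =
        ((mult T χ ψ * f ψ : ℕ) : ℂ) := by
      intro ψ hψ
      have h6 : B (fun l => ψ (jT l)) θ = ((f ψ : ℕ) : ℂ) :=
        (B_tr jT hjTi θ ψ).trans (mult_spec jT.range (mem_Irr.mp hψ) (tr_irr jT hjTi hθ))
      rw [B_smul_left, h6]
      push_cast
      rfl
    rw [Finset.sum_congr rfl h5] at h2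
    have h6 : ((∑ ψ ∈ Irr T, mult T χ ψ * f ψ : ℕ) : ℂ) = ((e χ : ℕ) : ℂ) := by
      rw [Nat.cast_sum]
      exact h2
    exact_mod_cast h6.symm
  have hsum : ∑ χ ∈ Irr X, (∑ ψ ∈ Irr T, mult T χ ψ * f ψ) ^ 2 = ∑ ψ ∈ Irr T, f ψ ^ 2 := by
    have h2 := clif j hj hθ T hT
    have h3 := clif jT hjTi hθ ⊤ hfix
    rw [Subgroup.card_top] at h3
    have h4 : ∑ χ ∈ Irr X, (∑ ψ ∈ Irr T, mult T χ ψ * f ψ) ^ 2 = ∑ χ ∈ Irr X, e χ ^ 2 :=
      Finset.sum_congr rfl fun χ hχ => by rw [h1 χ hχ]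
    rw [h4]
    exact Nat.eq_of_mul_eq_mul_left (Nat.card_pos (α := L)) (h2.trans h3.symm)
  obtain ⟨c1, c2, c3⟩ := comb (Irr X) (Irr T) (fun χ ψ => mult T χ ψ) f hsum
    (fun ψ hψ _ => exists_above T (mem_Irr.mp hψ))
  have hA : ∀ χ, IsIrr χ → (ov j θ χ ↔ e χ ≠ 0) := fun χ hχ => ov_iff_mult j hj hθ hχ
  have hB : ∀ ψ, IsIrr ψ → (ov jT θ ψ ↔ f ψ ≠ 0) := fun ψ hψ => ov_iff_mult jT hjTi hθ hψ
  have key : ∀ ψ, IsIrr ψ → ov jT θ ψ → ∀ χ, IsIrr χ → mult T χ ψ ≠ 0 →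
      indT T ψ = χ ∧ ov j θ χ := by
    intro ψ hψ ho χ hχ hm
    have hψ' := mem_Irr.mpr hψ
    have hχ' := mem_Irr.mpr hχ
    have hf' := (hB ψ hψ).1 ho
    obtain ⟨h2, h3⟩ := one_of_sum (Irr X) (fun χ => mult T χ ψ) (c1 ψ hψ' hf') hχ' hm
    refine ⟨?_, ?_⟩
    · rw [indT_eq T hψ, Finset.sum_eq_single χ]
      · beta_reduce at h2
        rw [h2, Nat.cast_one, one_smul]
      · intro χ' hc hne
        have h4 := h3 χ' hc hne
        beta_reduce at h4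
        rw [h4, Nat.cast_zero, zero_smul]
      · intro h
        exact absurd hχ' h
    · rw [hA χ hχ, h1 χ hχ']
      have h4 := c3 χ hχ' ψ hψ' hf' hm
      rw [h4]
      exact hf'
  have ex : ∀ ψ, IsIrr ψ → ov jT θ ψ → ∃ χ, IsIrr χ ∧ mult T χ ψ ≠ 0 := by
    intro ψ hψ ho
    have h2 := c1 ψ (mem_Irr.mpr hψ) ((hB ψ hψ).1 ho)
    obtain ⟨χ, hχ, hm⟩ := Finset.exists_ne_zero_of_sum_ne_zero (by rw [h2]; exact one_ne_zero)
    exact ⟨χ, mem_Irr.mp hχ, hm⟩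
  refine ⟨?_, ?_, ?_⟩
  · intro ψ hψ ho
    obtain ⟨χ, hχ, hm⟩ := ex ψ hψ ho
    obtain ⟨h2, h3⟩ := key ψ hψ ho χ hχ hm
    rw [h2]
    exact ⟨hχ, h3⟩
  · intro χ hχ ho
    have h2 := c2 χ (mem_Irr.mpr hχ) (by
      rw [← h1 χ (mem_Irr.mpr hχ)]
      exact (hA χ hχ).1 ho)
    obtain ⟨ψ, hψ, hm⟩ := Finset.exists_ne_zero_of_sum_ne_zero (by rw [h2]; exact one_ne_zero)
    rw [Finset.mem_filter] at hψ
    have hψ' : IsIrr ψ := mem_Irr.mp hψ.1
    have ho' := (hB ψ hψ').2 hψ.2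
    exact ⟨ψ, hψ', ho', (key ψ hψ' ho' χ hχ hm).1⟩
  · intro ψ ψ' hψ hψ' ho ho' heq
    obtain ⟨χ, hχ, hm⟩ := ex ψ hψ ho
    obtain ⟨χ', hχ', hm'⟩ := ex ψ' hψ' ho'
    have h2 := key ψ hψ ho χ hχ hm
    have h3 := key ψ' hψ' ho' χ' hχ' hm'
    have h4 : χ' = χ := by rw [← h3.1, ← heq, h2.1]
    subst h4
    have h5 := c2 χ' (mem_Irr.mpr hχ') (by
      rw [← h1 χ' (mem_Irr.mpr hχ')]
      exact (hA χ' hχ').1 h2.2)
    by_contra hne
    have h6 := one_of_sum _ (fun ψ => mult T χ' ψ) h5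
      (Finset.mem_filter.2 ⟨mem_Irr.mpr hψ', (hB ψ' hψ').1 ho'⟩) hm'
    exact hm (h6.2 ψ (Finset.mem_filter.2 ⟨mem_Irr.mpr hψ, (hB ψ hψ).1 ho⟩) hne)

/-- the induction map as a linear map -/
def indL (T : Subgroup X) : (T → ℂ) →ₗ[ℂ] (X → ℂ) where
  toFun := indT T
  map_add' F G := by
    funext g
    show _ = indT T F g + indT T G g
    unfold indT
    rw [← mul_add, ← Finset.sum_add_distrib]
    congr 1
    refine Finset.sum_congr rfl fun t _ => ?_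
    unfold ex0
    split_ifs
    · rfl
    · rw [add_zero]
  map_smul' c F := by
    funext g
    show _ = c * indT T F g
    have h1 : ∀ x, ex0 T (c • F) x = c * ex0 T F x := by
      intro x
      unfold ex0
      split_ifs
      · rfl
      · rw [mul_zero]
    unfold indT
    rw [Finset.sum_congr rfl fun t _ => h1 _, ← Finset.mul_sum, mul_left_comm]

lemma indT_zero (T : Subgroup X) (F : T → ℂ) (q : ℕ → Prop) (h : ∀ t : T, q (orderOf t) → F t = 0)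
    (g : X) (hg : q (orderOf g)) : indT T F g = 0 := by
  unfold indT
  have h5 : ∑ t : X, ex0 T F (t⁻¹ * g * t) = 0 := by
    refine Finset.sum_eq_zero fun t _ => ?_
    unfold ex0
    split_ifs with h1
    swap
    · rfl
    apply h
    have h2 : orderOf (⟨t⁻¹ * g * t, h1⟩ : T) = orderOf g := by
      rw [← Subgroup.orderOf_coe]
      show orderOf (t⁻¹ * g * t) = orderOf g
      have h3 : t⁻¹ * g * t = MulAut.conj t⁻¹ g := by
        rw [MulAut.conj_apply, inv_inv]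
      rw [h3]
      exact (MulAut.conj t⁻¹).orderOf_eq g
    rw [h2]
    exact hg
  rw [h5, mul_zero]

end Pool.Agent.K3h73.CY
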